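import Pool.Agent.Helper93.FZ.St

set_option autoImplicit false

namespace Pool.Agent.Helper22.FZ

open Pool.Agent.Helper93.FZ

theorem hPSI : StPSI := by
  intro n k H t hn hk hkn hH hHn ht ht1
  have hH2 : H ≤ n ^ 2 := by nlinarith
  have h1 : 0 ≤ H * (2 * n ^ 2 - (1 + t) * H) := by
    apply mul_nonneg hH
    nlinarith
  have h2 : 0 ≤ n ^ 3 - 3 * n * H * (1 + t) + 3 * k * H * (1 + t + t ^ 2) := by
    have h3 : 0 ≤ n * (n ^ 3 - 3 * n * H * (1 + t) + 3 * k * H * (1 + t + t ^ 2)) := by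
      have h4 : n * (n ^ 3 - 3 * n * H * (1 + t) + 3 * k * H * (1 + t + t ^ 2)) =
          (n ^ 2 - 3 / 2 * (1 + t) * H) ^ 2 + 3 / 4 * (1 - t) ^ 2 * H ^ 2 +
            3 * H * (1 + t + t ^ 2) * (n * k - H) := by ring
      rw [h4]
      have h5 : 0 ≤ 3 * H * (1 + t + t ^ 2) * (n * k - H) :=
        mul_nonneg (by positivity) (by linarith)
      positivity
    exact nonneg_of_mul_nonneg_right h3 hn
  have h6 : Psi n (t * k) (t * H) - Psi n k H = (1 - t) * (H * (2 * n ^ 2 - (1 + t) * H)) +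
      (1 - t) * (6 * k) * (n ^ 3 - 3 * n * H * (1 + t) + 3 * k * H * (1 + t + t ^ 2)) := by
    unfold Psi
    ring
  have h7 : 0 ≤ 1 - t := by linarith
  have h8 : 0 ≤ (1 - t) * (H * (2 * n ^ 2 - (1 + t) * H)) := mul_nonneg h7 h1
  have h9 : 0 ≤ (1 - t) * (6 * k) * (n ^ 3 - 3 * n * H * (1 + t) + 3 * k * H * (1 + t + t ^ 2)) :=
    mul_nonneg (mul_nonneg h7 (by linarith)) h2
  linarith

end Pool.Agent.Helper22.FZ
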